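import Mathlib

set_option autoImplicit false

/-!
# Determinants of zero-one matrices with three ones in every row

Every zero-one matrix of order `n` with exactly three ones in every row has determinant at most
`8^(n/4)`; hence the limit superior of `M_R(n,3)^(1/n)` is at most `8^(1/4) = 1.6817...`, which is
smaller than `β₃ = (40/11)^(11/36) 2^(7/36) = 1.6977...`.

Proof idea: the absolute value of the determinant is the product of the distances of the rows to
the span of the preceding rows.  A row which meets a preceding row has distance at most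
`sqrt (8/3)` instead of `sqrt 3`.  In a nonsingular matrix every row meets another row, and this
other row precedes it either in the given order of the rows or in the reversed order; multiply the
estimates for the two orders.
-/

namespace Pool.Agent.Results.MP_ba77d1_co.StrictBound

open Finset Matrix

/-- The set `R(n,k)` of `n × n` matrices with entries zero and one in which every row contains
exactly `k` ones. -/
def R (n k : ℕ) : Set (Matrix (Fin n) (Fin n) ℝ) :=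
  {A | (∀ i j, A i j = 0 ∨ A i j = 1) ∧ ∀ i, #{j | A i j = 1} = k}

/-- `M_R(n,k)`, the largest determinant of a matrix in `R(n,k)` (the supremum of a finite set of
real numbers, which is not empty for `n ≥ k`). -/
noncomputable def MR (n k : ℕ) : ℝ := sSup (Matrix.det '' R n k)

/-- The determinant is the product of the distances to the span of the preceding rows, in the
form needed here. -/
lemma det_sq_le {n : ℕ} (A : Matrix (Fin n) (Fin n) ℝ) (c : Fin n → ℝ)
    (hc : ∀ i, ∀ u : Fin n → ℝ, u ⬝ᵥ u = 1 → (∀ j, j < i → A j ⬝ᵥ u = 0) → (A i ⬝ᵥ u) ^ 2 ≤ c i) :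
    A.det ^ 2 ≤ ∏ i, c i := by
  set f : Fin n → EuclideanSpace ℝ (Fin n) := fun i => WithLp.toLp 2 (A i) with hf
  have hfin : Module.finrank ℝ (EuclideanSpace ℝ (Fin n)) = Fintype.card (Fin n) := by simp
  set b := InnerProductSpace.gramSchmidtOrthonormalBasis hfin f with hb
  set Q : Matrix (Fin n) (Fin n) ℝ := Matrix.of fun i j => b i j with hQ
  have hQQ : Q * Qᵀ = 1 := by
    ext i j
    have h1 := orthonormal_iff_ite.1 b.orthonormal i j
    rw [Matrix.mul_apply, Matrix.one_apply, ← h1]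
    simp [Q, PiLp.inner_apply, mul_comm]
  have hdQ : Q.det ^ 2 = 1 := by
    have := congrArg Matrix.det hQQ
    rw [det_mul, det_transpose, det_one] at this
    rw [sq]; exact this
  have hAQ : ∀ i j, (A * Qᵀ) i j = A i ⬝ᵥ (fun l => b j l) := by
    intro i j
    simp [Matrix.mul_apply, dotProduct, Q]
  have hzero : ∀ i j, i < j → A i ⬝ᵥ (fun l => b j l) = 0 := by
    intro i j hij
    have h1 := InnerProductSpace.gramSchmidtOrthonormalBasis_inv_triangular (𝕜 := ℝ) hfin f hij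
    rw [← hb] at h1
    simpa [PiLp.inner_apply, dotProduct, f, mul_comm] using h1
  have htri : (A * Qᵀ).det = ∏ i, A i ⬝ᵥ (fun l => b i l) := by
    rw [Matrix.det_of_isLowerTriangular]
    · exact prod_congr rfl fun i _ => hAQ i i
    · intro i j hij
      rw [hAQ]
      exact hzero i j hij
  have h2 : A.det ^ 2 = ∏ i, (A i ⬝ᵥ (fun l => b i l)) ^ 2 := by
    rw [prod_pow, ← htri, det_mul, det_transpose, mul_pow, hdQ, mul_one]
  rw [h2]
  refine prod_le_prod (fun i _ => sq_nonneg _) fun i _ => hc i _ ?_ ?_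
  · have h1 := orthonormal_iff_ite.1 b.orthonormal i i
    rw [if_pos rfl, PiLp.inner_apply] at h1
    rw [← h1]
    rfl
  · intro j hj
    exact hzero j i hj

lemma cs {n : ℕ} (u v : Fin n → ℝ) : (u ⬝ᵥ v) ^ 2 ≤ (u ⬝ᵥ u) * (v ⬝ᵥ v) := by
  have := Finset.sum_mul_sq_le_sq_mul_sq univ u v
  simpa [dotProduct, sq] using this

lemma dist_le {n : ℕ} (a g u : Fin n → ℝ) (ha : a ⬝ᵥ a = 3) (hg : g ⬝ᵥ g = 3)
    (hag : 1 ≤ a ⬝ᵥ g) (hu : u ⬝ᵥ u = 1) (hgu : g ⬝ᵥ u = 0) : (a ⬝ᵥ u) ^ 2 ≤ 8 / 3 := by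
  have h1 := cs (a - ((a ⬝ᵥ g) / 3) • g) u
  rw [hu, mul_one] at h1
  have h2 : (a - ((a ⬝ᵥ g) / 3) • g) ⬝ᵥ u = a ⬝ᵥ u := by
    rw [sub_dotProduct, smul_dotProduct, hgu]; simp
  have h3 : (a - ((a ⬝ᵥ g) / 3) • g) ⬝ᵥ (a - ((a ⬝ᵥ g) / 3) • g) = 3 - (a ⬝ᵥ g) ^ 2 / 3 := by
    rw [sub_dotProduct, dotProduct_sub, dotProduct_sub, smul_dotProduct, smul_dotProduct,
      dotProduct_smul, dotProduct_smul, ha, hg, dotProduct_comm g a]
    simp only [smul_eq_mul]
    ring
  rw [h2, h3] at h1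
  nlinarith

lemma half {n : ℕ} (A : Matrix (Fin n) (Fin n) ℝ) (h3 : ∀ i, A i ⬝ᵥ A i = 3) :
    A.det ^ 2 ≤ ∏ i, (if ∃ j, j < i ∧ 1 ≤ A i ⬝ᵥ A j then (8 / 3 : ℝ) else 3) := by
  classical
  refine det_sq_le A _ fun i u hu horth => ?_
  split_ifs with h
  · obtain ⟨j, hj, h1⟩ := h
    exact dist_le _ _ _ (h3 i) (h3 j) h1 hu (horth j hj)
  · have := cs (A i) u
    rw [h3, hu, mul_one] at this
    exact this

/-- the two orders together -/
lemma main_bound {n : ℕ} (A : Matrix (Fin n) (Fin n) ℝ) (h3 : ∀ i, A i ⬝ᵥ A i = 3)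
    (hn : ∀ i, ∃ j, j ≠ i ∧ 1 ≤ A i ⬝ᵥ A j) : |A.det| ^ 4 ≤ 8 ^ n := by
  classical
  have h1 := half A h3
  have h2 := half (A.submatrix Fin.rev id) (fun i => h3 (Fin.rev i))
  have hd : (A.submatrix Fin.rev id).det ^ 2 = A.det ^ 2 := by
    have : A.submatrix Fin.rev id = A.submatrix (Fin.revPerm : Equiv.Perm (Fin n)) id := rfl
    rw [this, Matrix.det_permute, mul_pow]
    rcases Int.units_eq_one_or (Equiv.Perm.sign (Fin.revPerm : Equiv.Perm (Fin n))) with h | h <;>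
      simp [h]
  rw [hd] at h2
  rw [← Equiv.prod_comp (Fin.revPerm : Equiv.Perm (Fin n))] at h2
  have h4 : |A.det| ^ 4 = A.det ^ 2 * A.det ^ 2 := by
    rw [← sq_abs]; ring
  rw [h4]
  have hp : ∀ (p : Prop) [Decidable p], (0 : ℝ) ≤ if p then (8 / 3 : ℝ) else 3 := by
    intro p _; split_ifs <;> norm_num
  calc A.det ^ 2 * A.det ^ 2 ≤ _ * _ :=
        mul_le_mul h1 h2 (sq_nonneg _) (prod_nonneg fun i _ => hp _)
    _ = ∏ i : Fin n, ((if ∃ j, j < i ∧ 1 ≤ A i ⬝ᵥ A j then (8 / 3 : ℝ) else 3) *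
          (if ∃ j, j < Fin.revPerm i ∧ 1 ≤ A.submatrix Fin.rev id (Fin.revPerm i) ⬝ᵥ
            A.submatrix Fin.rev id j then (8 / 3 : ℝ) else 3)) := by
        rw [prod_mul_distrib]
    _ ≤ ∏ _i : Fin n, (8 : ℝ) := by
        refine prod_le_prod (fun i _ => mul_nonneg (hp _) (hp _)) fun i _ => ?_
        obtain ⟨j, hji, hj⟩ := hn i
        rcases lt_or_gt_of_ne hji with h | h
        · rw [if_pos ⟨j, h, hj⟩]
          split_ifs <;> norm_num
        · have hj' : 1 ≤ A.submatrix Fin.rev id (Fin.revPerm i) ⬝ᵥ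
              A.submatrix Fin.rev id (Fin.rev j) := by
            have e1 : A.submatrix Fin.rev id (Fin.revPerm i) = A i := by
              funext x; simp
            have e2 : A.submatrix Fin.rev id (Fin.rev j) = A j := by
              funext x; simp
            rw [e1, e2]; exact hj
          have hex : ∃ j, j < Fin.revPerm i ∧ 1 ≤ A.submatrix Fin.rev id (Fin.revPerm i) ⬝ᵥ
              A.submatrix Fin.rev id j := ⟨Fin.rev j, by simpa using h, hj'⟩
          rw [if_pos hex]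
          split_ifs <;> norm_num
    _ = 8 ^ n := by simp

lemma row_norm {n : ℕ} {A : Matrix (Fin n) (Fin n) ℝ} (hA : A ∈ R n 3) (i : Fin n) :
    A i ⬝ᵥ A i = 3 := by
  have h1 : ∀ j, A i j * A i j = if A i j = 1 then 1 else 0 := by
    intro j
    rcases hA.1 i j with h | h <;> simp [h]
  rw [dotProduct, sum_congr rfl fun j _ => h1 j, ← Finset.sum_filter, sum_const, hA.2 i]
  norm_num

lemma neighbour {n : ℕ} {A : Matrix (Fin n) (Fin n) ℝ} (hA : A ∈ R n 3) (hdet : A.det ≠ 0)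
    (i : Fin n) : ∃ j, j ≠ i ∧ 1 ≤ A i ⬝ᵥ A j := by
  by_contra hcon
  push Not at hcon
  have hnn : ∀ a b, 0 ≤ A a b := by
    intro a b
    rcases hA.1 a b with h | h <;> simp [h]
  have hz : ∀ a, A i a = 1 → ∀ j, j ≠ i → A j a = 0 := by
    intro a ha j hj
    rcases hA.1 j a with h | h
    · exact h
    · exfalso
      have h1 := hcon j hj
      have h2 : A i a * A j a ≤ A i ⬝ᵥ A j :=
        Finset.single_le_sum (f := fun x => A i x * A j x)
          (fun x _ => mul_nonneg (hnn i x) (hnn j x)) (mem_univ a)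
      rw [ha, h] at h2
      linarith
  have hcard : 1 < #{j | A i j = 1} := by rw [hA.2 i]; norm_num
  obtain ⟨a, ha, b, hb, hab⟩ := Finset.one_lt_card.1 hcard
  rw [mem_filter] at ha hb
  apply hdet
  apply Matrix.det_zero_of_column_eq hab
  intro j
  by_cases hj : j = i
  · rw [hj, ha.2, hb.2]
  · rw [hz a ha.2 j hj, hz b hb.2 j hj]

lemma det_le {n : ℕ} {A : Matrix (Fin n) (Fin n) ℝ} (hA : A ∈ R n 3) :
    A.det ≤ (8 : ℝ) ^ ((n : ℝ) / 4) := by
  have hpos : (0 : ℝ) ≤ (8 : ℝ) ^ ((n : ℝ) / 4) := Real.rpow_nonneg (by norm_num) _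
  by_cases hdet : A.det = 0
  · rw [hdet]; exact hpos
  · have h1 := main_bound A (row_norm hA) (neighbour hA hdet)
    have h2 : ((8 : ℝ) ^ ((n : ℝ) / 4)) ^ 4 = 8 ^ n := by
      rw [← Real.rpow_natCast, ← Real.rpow_mul (by norm_num)]
      have : (n : ℝ) / 4 * ((4 : ℕ) : ℝ) = n := by push_cast; ring
      rw [this, Real.rpow_natCast]
    rw [← h2] at h1
    exact (le_abs_self _).trans ((pow_le_pow_iff_left₀ (abs_nonneg _) hpos (by norm_num)).1 h1)

lemma MR_le (n : ℕ) : MR n 3 ≤ (8 : ℝ) ^ ((n : ℝ) / 4) := by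
  refine Real.sSup_le ?_ (Real.rpow_nonneg (by norm_num) _)
  rintro x ⟨A, hA, rfl⟩
  exact det_le hA

lemma R_swap {n : ℕ} {A : Matrix (Fin n) (Fin n) ℝ} (hA : A ∈ R n 3) (σ : Equiv.Perm (Fin n)) :
    A.submatrix σ id ∈ R n 3 := ⟨fun _ _ => hA.1 _ _, fun _ => hA.2 _⟩

lemma MR_nonneg (n : ℕ) : 0 ≤ MR n 3 := by
  unfold MR
  rcases Set.eq_empty_or_nonempty (R n 3) with h | ⟨A, hA⟩
  · rw [h]; simp
  · have hbdd : BddAbove (Matrix.det '' R n 3) :=
      ⟨(8 : ℝ) ^ ((n : ℝ) / 4), by rintro x ⟨B, hB, rfl⟩; exact det_le hB⟩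
    by_cases h0 : 0 ≤ A.det
    · exact h0.trans (le_csSup hbdd ⟨A, hA, rfl⟩)
    · push Not at h0
      have hn : 1 < n := by
        by_contra hn
        have hc := hA.2
        rcases Nat.lt_or_ge n 1 with h1 | h1
        · obtain rfl : n = 0 := by omega
          simp at h0
          linarith
        · have := hc ⟨0, h1⟩
          have h2 := card_le_univ (univ.filter fun j => A ⟨0, h1⟩ j = 1)
          rw [this, Fintype.card_fin] at h2
          omega
      have h1 : (A.submatrix (Equiv.swap (⟨0, by omega⟩ : Fin n) ⟨1, hn⟩) id).det = - A.det := by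
        rw [Matrix.det_permute, Equiv.Perm.sign_swap (by simp [Fin.ext_iff])]
        simp
      have h2 := le_csSup hbdd ⟨_, R_swap hA (Equiv.swap (⟨0, by omega⟩ : Fin n) ⟨1, hn⟩), rfl⟩
      rw [h1] at h2
      linarith

/-- **Determinants of zero-one matrices with row sums three.**  For all `n`,
`M_R(n,3) ≤ 8^(n/4)`, and
`limsup M_R(n,3)^(1/n) ≤ 8^(1/4) < β₃ = (40/11)^(11/36) 2^(7/36)`. -/
theorem result :
    (∀ n : ℕ, 0 ≤ MR n 3 ∧ MR n 3 ≤ (8 : ℝ) ^ ((n : ℝ) / 4)) ∧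
    Filter.limsup (fun n : ℕ => (MR n 3) ^ ((1 : ℝ) / n)) Filter.atTop ≤ (8 : ℝ) ^ ((1 : ℝ) / 4) ∧
    Filter.limsup (fun n : ℕ => (MR n 3) ^ ((1 : ℝ) / n)) Filter.atTop
      < (40 / 11 : ℝ) ^ ((11 : ℝ) / 36) * (2 : ℝ) ^ ((7 : ℝ) / 36) := by
  have hroot : ∀ n : ℕ, 1 ≤ n → (MR n 3) ^ ((1 : ℝ) / n) ≤ (8 : ℝ) ^ ((1 : ℝ) / 4) := by
    intro n hn
    have hn' : (0 : ℝ) < n := by exact_mod_cast hn
    calc (MR n 3) ^ ((1 : ℝ) / n) ≤ ((8 : ℝ) ^ ((n : ℝ) / 4)) ^ ((1 : ℝ) / n) :=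
          Real.rpow_le_rpow (MR_nonneg n) (MR_le n) (by positivity)
      _ = (8 : ℝ) ^ ((1 : ℝ) / 4) := by
          rw [← Real.rpow_mul (by norm_num)]
          congr 1
          field_simp
  have hlim : Filter.limsup (fun n : ℕ => (MR n 3) ^ ((1 : ℝ) / n)) Filter.atTop
      ≤ (8 : ℝ) ^ ((1 : ℝ) / 4) := by
    refine Filter.limsup_le_of_le ?_ ?_
    · refine Filter.IsBoundedUnder.isCoboundedUnder_le ⟨0, ?_⟩
      rw [Filter.eventually_map]
      exact Filter.Eventually.of_forall fun n => Real.rpow_nonneg (MR_nonneg n) _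
    · filter_upwards [Filter.eventually_ge_atTop 1] with n hn
      exact hroot n hn
  refine ⟨fun n => ⟨MR_nonneg n, MR_le n⟩, hlim, lt_of_le_of_lt hlim ?_⟩
  have e1 : ((8 : ℝ) ^ ((1 : ℝ) / 4)) ^ 36 = 8 ^ 9 := by
    rw [← Real.rpow_natCast, ← Real.rpow_mul (by norm_num)]
    norm_num
  have e2 : ((40 / 11 : ℝ) ^ ((11 : ℝ) / 36) * (2 : ℝ) ^ ((7 : ℝ) / 36)) ^ 36
      = (40 / 11) ^ 11 * 2 ^ 7 := by
    rw [mul_pow, ← Real.rpow_natCast, ← Real.rpow_natCast, ← Real.rpow_mul (by norm_num),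
      ← Real.rpow_mul (by norm_num)]
    norm_num
  refine lt_of_pow_lt_pow_left₀ 36 (by positivity) ?_
  rw [e1, e2]
  norm_num

end Pool.Agent.Results.MP_ba77d1_co.StrictBound
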